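import Mathlib
import Pool.Agent.H.MP_ad5f6c_nt.B

open MeasureTheory

namespace Pool.Agent.Results.MP_ad5f6c_nt.Yes

def Bad (θ₁ θ₂ x y : ℝ) : Prop :=
  ∃ ε : ℝ, 0 < ε ∧ ∃ Q : ℕ, ∀ q : ℤ, (Q : ℤ) ≤ |q| →
    ε ≤ √|(q : ℝ)| * max |q * θ₁ - x - round (q * θ₁ - x)| |q * θ₂ - y - round (q * θ₂ - y)|

def Sing (θ₁ θ₂ : ℝ) : Prop :=
  ∀ ε : ℝ, 0 < ε → ∃ N₀ : ℕ, ∀ N : ℕ, N₀ ≤ N → ∃ q : ℤ, 0 < |q| ∧ |q| ≤ N ∧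
    max |q * θ₁ - round (q * θ₁)| |q * θ₂ - round (q * θ₂)| ≤ ε / √(N : ℝ)

theorem result : ∃ θ₁ θ₂ c : ℝ, ¬ Sing θ₁ θ₂ ∧ MeasurableSet {x : ℝ | Bad θ₁ θ₂ x c} ∧
    0 < volume ({x : ℝ | Bad θ₁ θ₂ x c} ∩ Set.Ico (0 : ℝ) 1) := by
  obtain ⟨θ₁, θ₂, c, h1, h2, -⟩ := Pool.Agent.H.MP_ad5f6c_nt.main
  exact ⟨θ₁, θ₂, c, h1, Pool.Agent.H.MP_ad5f6c_nt.meas θ₁ θ₂ c, h2⟩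

end Pool.Agent.Results.MP_ad5f6c_nt.Yes
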